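import Pool.Agent.P.MP_0a2852_co.Full.Asm

/-! The threshold for shattering `k`-sets with `t` orders is `2 ^ (k - 1) + 1`. -/

namespace Pool.Agent.Results.MP_0a2852_co.Full

open Pool.Agent.P.MP_0a2852_co

theorem result (k : ℕ) (hk : 3 ≤ k) : tau k = 2 ^ (k - 1) + 1 := Full.tau_eq hk

end Pool.Agent.Results.MP_0a2852_co.Full
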